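import Pool.Agent.H.MP_f0e28a_gt.A

namespace Pool.Agent.Results.MP_f0e28a_gt.Both

open Set Topology Filter Module Matrix Pool.Agent.H.MP_f0e28a_gt

variable {d : ℕ}

def D (d j : ℕ) : Finset (Fin d) := Finset.univ.filter fun i => j ≤ (i : ℕ)

lemma memD {j : ℕ} {i : Fin d} : i ∈ D d j ↔ j ≤ i := by simp [D]

lemma cardD {j : ℕ} (h : j ≤ d) : ∑ _i ∈ D d j, (1 : ℝ) = d - j := by
  have := Finset.card_filter_add_card_filter_not (s := Finset.univ) fun i : Fin d => (i : ℕ) < j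
  simp only [Fin.card_filter_val_lt, not_lt, Finset.card_univ, Fintype.card_fin, min_eq_right h] at this
  simp only [D, Finset.sum_const, nsmul_eq_mul, mul_one]
  rw [eq_sub_iff_add_eq', ← Nat.cast_add, this]

def S (d : ℕ) (I : Finset ℕ) : Set (E d) :=
  {x | ∀ j ∈ I, (∀ i ∈ D d j, 0 < x i) ∧ ∑ i ∈ D d j, (x i)⁻¹ ≤ d - j}

lemma quad (x : E d) (j : ℕ) (c : ℝ) (hc : 0 ≤ c) : (∀ (s : ℝ) (w : Fin d → ℝ),
    0 ≤ c * (s * s) + ∑ i ∈ D d j, (s * w i + w i * s) + ∑ i ∈ D d j, x i * (w i * w i)) ↔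
      (∀ i ∈ D d j, 0 < x i) ∧ ∑ i ∈ D d j, (x i)⁻¹ ≤ c := by
  constructor
  · intro h
    have h1 : ∀ i ∈ D d j, 0 < x i := fun i hi => by
      have := h (-1) (Pi.single i (c + 1))
      rw [Finset.sum_eq_single_of_mem i hi fun k _ hk => by simp [hk],
        Finset.sum_eq_single_of_mem i hi fun k _ hk => by simp [hk]] at this
      simp only [Pi.single_eq_same] at this
      by_contra! h2
      nlinarith [mul_nonneg_of_nonpos_of_nonpos h2 (neg_nonpos.2 (mul_self_nonneg (c + 1)))]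
    refine ⟨h1, ?_⟩
    have := h 1 fun i => -(x i)⁻¹
    rw [add_assoc, ← Finset.sum_add_distrib, Finset.sum_congr rfl (g := fun i => -(x i)⁻¹) fun i hi => by
      have := (h1 i hi).ne'
      field_simp
      ring, Finset.sum_neg_distrib] at this
    linarith
  · rintro ⟨h1, h2⟩ s w
    have := mul_le_mul_of_nonneg_right h2 (mul_self_nonneg s)
    rw [Finset.sum_mul] at this
    have h3 : 0 ≤ ∑ i ∈ D d j, ((x i)⁻¹ * (s * s) + (s * w i + w i * s) + x i * (w i * w i)) :=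
      Finset.sum_nonneg fun i hi => by
        have := h1 i hi
        rw [show (x i)⁻¹ * (s * s) + (s * w i + w i * s) + x i * (w i * w i) = (s + x i * w i) ^ 2 / x i by
          field_simp; ring]
        positivity
    rw [Finset.sum_add_distrib, Finset.sum_add_distrib] at h3
    linarith

lemma spec (I : Finset ℕ) (hI : ∀ j ∈ I, j ≤ d) : Spec (S d I) := by
  obtain ⟨m, ⟨e⟩⟩ := Finite.exists_equiv_fin (I × Option (Fin d))
  let U (a b : I × Option (Fin d)) : Matrix (Fin m) (Fin m) ℝ := single (e a) (e b) 1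
  have h1 : (∑ j : I, (((d : ℝ) - (j : ℕ)) • U (j, none) (j, none) +
      ∑ i ∈ D d j, (U (j, none) (j, some i) + U (j, some i) (j, none)))).IsSymm := by
    simp [U, IsSymm, transpose_sum, add_comm]
  have h2 : ∀ i, (∑ j : I, if i ∈ D d j then U (j, some i) (j, some i) else 0).IsSymm := fun i => by
    simp [U, IsSymm, transpose_sum, apply_ite transpose]
  refine ⟨m, _, _, h1, h2, Set.ext fun x => ?_⟩
  have h3 : ∀ v : Fin m → ℝ, star v ⬝ᵥ ((∑ j : I, (((d : ℝ) - (j : ℕ)) • U (j, none) (j, none) +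
      ∑ i ∈ D d j, (U (j, none) (j, some i) + U (j, some i) (j, none)))) +
      ∑ i, x i • ∑ j : I, if i ∈ D d j then U (j, some i) (j, some i) else 0) *ᵥ v =
      ∑ j : I, (((d : ℝ) - (j : ℕ)) * (v (e (j, none)) * v (e (j, none))) + ∑ i ∈ D d j, (v (e (j, none)) *
        v (e (j, some i)) + v (e (j, some i)) * v (e (j, none))) +
        ∑ i ∈ D d j, x i * (v (e (j, some i)) * v (e (j, some i)))) := fun v => by
    let L : Matrix (Fin m) (Fin m) ℝ →ₗ[ℝ] ℝ :=
      { toFun := fun M => v ⬝ᵥ M *ᵥ v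
        map_add' := fun _ _ => by simp [add_mulVec]
        map_smul' := fun _ _ => by simp [smul_mulVec] }
    have hL : ∀ a b, L (U a b) = v (e a) * v (e b) := fun a b => by
      simp [L, U, single_mulVec, dotProduct, Function.update_apply]
    change L _ = _
    simp only [map_add, map_sum, map_smul, hL, apply_ite L, map_zero, smul_eq_mul, Finset.mul_sum]
    rw [Finset.sum_comm, ← Finset.sum_add_distrib]
    simp [Finset.sum_ite_mem]
  rw [mem_ofPred, posSemidef_iff_dotProduct_mulVec, and_iff_right]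
  · simp only [h3]
    refine ⟨fun h v => Finset.sum_nonneg fun j _ => (quad x j _ (sub_nonneg.2 (Nat.cast_le.2 (hI _ j.2)))).2
      (h j j.2) _ _, fun h j hj => (quad x j _ (sub_nonneg.2 (Nat.cast_le.2 (hI _ hj)))).1 fun s w => ?_⟩
    have := h fun a => if (e.symm a).1 = ⟨j, hj⟩ then (e.symm a).2.elim s w else 0
    rw [Finset.sum_eq_single_of_mem ⟨j, hj⟩ (Finset.mem_univ _) fun k _ hk => by simp [hk]] at this
    simpa using this
  · rw [IsHermitian, conjTranspose_eq_transpose_of_trivial, transpose_add, h1, transpose_sum]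
    simp only [transpose_smul, (h2 _).eq]

lemma spec_convex {T : Set (E d)} (h : Spec T) : Convex ℝ T := by
  obtain ⟨m, A₀, A, -, -, rfl⟩ := h
  intro x hx y hy a b ha hb hab
  convert (PosSemidef.smul hx ha).add (PosSemidef.smul hy hb) using 1
  simp only [mem_ofPred, PiLp.add_apply, PiLp.smul_apply, smul_eq_mul, add_smul, mul_smul, smul_add,
    Finset.sum_add_distrib, ← Finset.smul_sum]
  rw [add_add_add_comm, ← add_smul, hab, one_smul]

def act (j : ℕ) (p : E d) : Prop := ∑ i ∈ D d j, (p i)⁻¹ = d - j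

noncomputable def nv (j : ℕ) (p : E d) : E d := WithLp.toLp 2 fun i => if i ∈ D d j then -(p i)⁻¹ ^ 2 else 0

variable {I : Finset ℕ} {j : ℕ} {p : E d}

lemma cut (hj : j ∈ I) (hp : p ∈ S d I) (h : act j p) {x : E d} (hx : x ∈ S d I) :
    inner ℝ x (nv j p) ≤ j - d ∧ (inner ℝ x (nv j p) = j - d ↔ ∀ i ∈ D d j, x i = p i) := by
  have e : inner ℝ x (nv j p) = -∑ i ∈ D d j, x i * (p i)⁻¹ ^ 2 := by
    simp [nv, PiLp.inner_apply, Finset.sum_ite_mem, mul_comm]
  have h1 : ∀ i ∈ D d j, 0 ≤ (x i - p i) ^ 2 / (x i * p i ^ 2) := fun i hi => by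
    have := (hx j hj).1 i hi
    positivity
  have h2 : ∑ i ∈ D d j, (x i - p i) ^ 2 / (x i * p i ^ 2) =
      ∑ i ∈ D d j, (x i)⁻¹ - 2 * (d - j) + ∑ i ∈ D d j, x i * (p i)⁻¹ ^ 2 := by
    rw [← h, Finset.mul_sum, ← Finset.sum_sub_distrib, ← Finset.sum_add_distrib]
    refine Finset.sum_congr rfl fun i hi => ?_
    have := (hx j hj).1 i hi
    have := (hp j hj).1 i hi
    field_simp
    ring
  have h3 := Finset.sum_nonneg h1
  have h4 := (hx j hj).2
  refine ⟨by linarith, fun h5 i hi => ?_, fun h5 => ?_⟩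
  · have h6 := (Finset.sum_eq_zero_iff_of_nonneg h1).1 (by linarith) i hi
    have := (hx j hj).1 i hi
    have := (hp j hj).1 i hi
    rwa [div_eq_zero_iff, or_iff_left (by positivity), sq_eq_zero_iff, sub_eq_zero] at h6
  · rw [e, ← neg_sub, ← h, neg_inj]
    refine Finset.sum_congr rfl fun i hi => ?_
    have := (hp j hj).1 i hi
    rw [h5 i hi]
    field_simp

lemma room (hp : p ∈ S d I) (h : ∀ k ∈ I, k < j → ¬ act k p) {u : E d} (hu : ∀ i ∈ D d j, u i = 0) :
    ∃ e > (0 : ℝ), p + e • u ∈ S d I := by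
  suffices ∀ᶠ e : ℝ in 𝓝 0, p + e • u ∈ S d I by
    obtain ⟨e, h1, h2⟩ := ((eventually_nhdsWithin_of_eventually_nhds this).and
      (self_mem_nhdsWithin (s := Ioi 0))).exists
    exact ⟨e, h2, h1⟩
  refine (eventually_all_finset I).2 fun k hk => ?_
  by_cases h1 : k < j
  · refine ((eventually_all_finset _).2 fun i hi => ?_).and ?_
    · exact ContinuousAt.eventually_lt (f := fun _ => 0) (by fun_prop) (by fun_prop) (by simpa using (hp k hk).1 i hi)
    · refine (ContinuousAt.eventually_lt (g := fun _ => (d : ℝ) - k) (tendsto_finsetSum _ fun i hi => ?_)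
        (by fun_prop) (by simpa using (hp k hk).2.lt_of_ne (h k hk h1))).mono fun _ h => h.le
      exact ContinuousAt.inv₀ (by fun_prop) (by simpa using ((hp k hk).1 i hi).ne')
  · have : ∀ e : ℝ, ∀ i ∈ D d k, (p + e • u) i = p i := fun e i hi => by
      simp [hu i (by rw [memD] at hi ⊢; omega)]
    exact .of_forall fun e => ⟨fun i hi => this e i hi ▸ (hp k hk).1 i hi,
      (Finset.sum_congr rfl fun i hi => by rw [this e i hi]).trans_le (hp k hk).2⟩

lemma dimL (hj : j ≤ d) (hp : p ∈ S d I) (h : ∀ k ∈ I, k < j → ¬ act k p) :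
    finrank ℝ (affineSpan ℝ {x ∈ S d I | ∀ i ∈ D d j, x i = p i}).direction = j := by
  let f : (Fin j → ℝ) →ₗ[ℝ] E d :=
    { toFun := fun u => WithLp.toLp 2 fun i => if h : (i : ℕ) < j then u ⟨i, h⟩ else 0
      map_add' := fun _ _ => by ext i; by_cases h : (i : ℕ) < j <;> simp [h]
      map_smul' := fun _ _ => by ext i; by_cases h : (i : ℕ) < j <;> simp [h] }
  have hf : Function.Injective f := fun u v h => funext fun i => by
    simpa [f] using congrArg (fun x : E d => x ⟨i, by omega⟩) h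
  rw [direction_affineSpan, show vectorSpan ℝ {x ∈ S d I | ∀ i ∈ D d j, x i = p i} = f.range from ?_,
    LinearMap.finrank_range_of_inj hf, finrank_fin_fun]
  refine le_antisymm ?_ ?_
  · rw [vectorSpan_def, Submodule.span_le]
    rintro _ ⟨a, ha, b, hb, rfl⟩
    refine ⟨fun i => (a - b) ⟨i, by omega⟩, ?_⟩
    ext i
    by_cases h : (i : ℕ) < j
    · simp [f, h]
    · simp [f, h, ha.2 i (memD.2 (by omega)), hb.2 i (memD.2 (by omega))]
  · rintro _ ⟨u, rfl⟩
    have hu : ∀ i ∈ D d j, f u i = 0 := fun i hi => by simp [f, (memD.1 hi).not_gt]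
    obtain ⟨e, he, h1⟩ := room hp h hu
    have := vsub_mem_vectorSpan ℝ (s := {x ∈ S d I | ∀ i ∈ D d j, x i = p i})
      ⟨h1, fun i hi => by simp [hu i hi]⟩ ⟨hp, fun _ _ => rfl⟩
    simpa [Submodule.smul_mem_iff _ he.ne'] using this

lemma classify (hd : d ∈ I) {F : Set (E d)} (hF : Face (S d I) F) (hn : F.Nonempty) : ∃ j ∈ I, ∃ p ∈ S d I,
    act j p ∧ (∀ k ∈ I, k < j → ¬ act k p) ∧ F = {x ∈ S d I | ∀ i ∈ D d j, x i = p i} := by
  classical
  have ex : ∀ p : E d, ∃ j ∈ I, act j p ∧ ∀ k ∈ I, k < j → ¬ act k p := fun p => by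
    obtain ⟨j, h1, h2⟩ := (I.filter fun j => act j p).exists_min_image id
      ⟨d, by simp [hd, act, D, Finset.filter_false_of_mem]⟩
    exact ⟨j, (Finset.mem_filter.1 h1).1, (Finset.mem_filter.1 h1).2, fun k hk h h3 =>
      h.not_ge (h2 k (Finset.mem_filter.2 ⟨hk, h3⟩))⟩
  obtain ⟨j, h1, h2⟩ := (I.filter fun j => ∃ p ∈ F, act j p ∧ ∀ k ∈ I, k < j → ¬ act k p).exists_max_image id (by
    obtain ⟨p, hp⟩ := hn
    obtain ⟨j, h1, h2⟩ := ex p
    exact ⟨j, Finset.mem_filter.2 ⟨h1, p, hp, h2⟩⟩)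
  obtain ⟨hj, p, hp, h3, h4⟩ := Finset.mem_filter.1 h1
  refine ⟨j, hj, p, hF.1 hp, h3, h4, Set.Subset.antisymm (fun q hq => ⟨hF.1 hq, ?_⟩) fun q hq => ?_⟩
  · have hr := (hF.2.1) hp hq (a := 1 / 2) (b := 1 / 2) (by norm_num) (by norm_num) (by norm_num)
    obtain ⟨k, hk, h5, h6⟩ := ex ((1 / 2 : ℝ) • p + (1 / 2 : ℝ) • q)
    have h7 : k ≤ j := h2 k (Finset.mem_filter.2 ⟨hk, _, hr, h5, h6⟩)
    have c1 := cut hk (hF.1 hr) h5 (hF.1 hp)
    have c2 := cut hk (hF.1 hr) h5 (hF.1 hq)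
    have c3 := (cut hk (hF.1 hr) h5 (hF.1 hr)).2.2 fun _ _ => rfl
    rw [inner_add_left, real_inner_smul_left, real_inner_smul_left] at c3
    intro i hi
    have hi' : i ∈ D d k := memD.2 (h7.trans (memD.1 hi))
    rw [c1.2.1 (by linarith [c1.1, c2.1]) i hi', c2.2.1 (by linarith [c1.1, c2.1]) i hi']
  · obtain ⟨e, he, h5⟩ := room (hF.1 hp) h4 (u := p - q) fun i hi => by simp [hq.2 i hi]
    exact hF.ext hp hq.1 he h5

lemma pol (hI : ∀ j ∈ I, j ≤ d) {k : ℕ} (hk : k ∈ I) (hm : ∀ j ∈ I, k ≤ j) :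
    polar (S d I) = {y | ∀ i, y i ≤ 0 ∧ (i ∉ D d k → y i = 0)} := by
  ext y
  constructor
  · intro h i
    have key : ∀ s : ℝ, (i ∈ D d k → 0 ≤ s) → s * y i ≤ 0 := fun s hs => by
      by_contra! h1
      obtain ⟨o, ho⟩ : ∃ o : E d, ∀ i, o i = 1 := ⟨WithLp.toLp 2 fun _ => 1, fun _ => rfl⟩
      have h2 : ∀ t : ℝ, 0 ≤ t → o + EuclideanSpace.single i (t * s) ∈ S d I := fun t ht j hj => by
        have : ∀ l ∈ D d j, 1 ≤ (o + EuclideanSpace.single i (t * s)) l := fun l hl => by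
          by_cases h3 : l = i
          · subst h3
            simpa [ho] using mul_nonneg ht (hs (memD.2 ((hm j hj).trans (memD.1 hl))))
          · simp [ho, h3]
        exact ⟨fun l hl => one_pos.trans_le (this l hl), cardD (hI j hj) ▸
          Finset.sum_le_sum fun l hl => inv_le_one_of_one_le₀ (this l hl)⟩
      have h3 := h _ (h2 ((|inner ℝ o y| + 2) / (s * y i)) (by positivity))
      rw [inner_add_left, EuclideanSpace.inner_single_left, conj_trivial, mul_assoc,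
        div_mul_cancel₀ _ h1.ne'] at h3
      linarith [neg_abs_le (inner ℝ o y)]
    have h1 := key 1 fun _ => zero_le_one
    exact ⟨by linarith, fun h2 => by linarith [key (-1) fun h => (h2 h).elim]⟩
  · intro h x hx
    rw [PiLp.inner_apply]
    refine (Finset.sum_nonpos fun i _ => ?_).trans zero_le_one
    by_cases hi : i ∈ D d k
    · simpa using mul_nonpos_of_nonpos_of_nonneg (h i).1 ((hx k hk).1 i hi).le
    · simp [(h i).2 hi]

lemma orth (A : Finset (Fin d)) : FE {y : E d | ∀ i, y i ≤ 0 ∧ (i ∉ A → y i = 0)} := fun F hF ⟨q, hq⟩ hne => by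
  classical
  obtain ⟨p, hp, hm⟩ := (Finset.univ.powerset.filter fun Z : Finset (Fin d) => ∃ y ∈ F, ∀ i, i ∈ Z ↔ y i = 0).exists_min_image
      Finset.card ⟨Finset.univ.filter fun i => q i = 0, by simpa using ⟨q, hq, fun _ => Iff.rfl⟩⟩
  obtain ⟨-, y, hy, hZ⟩ := Finset.mem_filter.1 hp
  have e : ∀ x : E d, inner ℝ x (WithLp.toLp 2 fun i => if i ∈ p then (1 : ℝ) else 0) = ∑ i ∈ p, x i := fun x => by
    simp [PiLp.inner_apply, Finset.sum_ite_mem]
  have hE : F = {x ∈ {y : E d | ∀ i, y i ≤ 0 ∧ (i ∉ A → y i = 0)} | ∑ i ∈ p, x i = 0} := by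
    refine Set.Subset.antisymm (fun x hx => ⟨hF.1 hx, Finset.sum_eq_zero fun i hi => ?_⟩) fun x hx => ?_
    · have hr := (hF.2.1) hy hx (a := 1 / 2) (b := 1 / 2) (by norm_num) (by norm_num) (by norm_num)
      have h1 : (Finset.univ.filter fun i => ((1 / 2 : ℝ) • y + (1 / 2 : ℝ) • x) i = 0) = p :=
        Finset.eq_of_subset_of_card_le (fun l hl => (hZ l).2 (by
          have := (Finset.mem_filter.1 hl).2
          simp only [PiLp.add_apply, PiLp.smul_apply, smul_eq_mul] at this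
          linarith [(hF.1 hy l).1, (hF.1 hx l).1])) (hm _ (Finset.mem_filter.2 ⟨by simp, _, hr, by simp⟩))
      have := (Finset.mem_filter.1 (h1.symm ▸ hi)).2
      simpa [(hZ i).1 hi] using this
    · have h1 := (Finset.sum_eq_zero_iff_of_nonpos fun i _ => (hx.1 i).1).1 hx.2
      have : ∀ᶠ e : ℝ in 𝓝 0, ∀ i, (y + e • (y - x)) i ≤ 0 := eventually_all.2 fun i => by
        by_cases h : i ∈ p
        · simp [h1 i h, (hZ i).1 h]
        · exact (ContinuousAt.eventually_lt (g := fun _ => 0) (by fun_prop) (by fun_prop)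
            (by simpa using (hF.1 hy i).1.lt_of_ne (mt (hZ i).2 h))).mono fun _ h => h.le
      obtain ⟨t, h2, h3⟩ := ((eventually_nhdsWithin_of_eventually_nhds this).and
        (self_mem_nhdsWithin (s := Ioi 0))).exists
      exact hF.ext hy hx.1 h3 fun i => ⟨h2 i, fun h => by simp [(hF.1 hy i).2 h, (hx.1 i).2 h]⟩
  refine ⟨WithLp.toLp 2 fun i => if i ∈ p then (1 : ℝ) else 0, 0, fun h => hne ?_, fun x hx => ?_, ?_⟩
  · rw [hE]
    exact sep_eq_self_iff_mem_true.2 fun x _ => by simp [← e, h]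
  · rw [e]
    exact Finset.sum_nonpos fun i _ => (hx i).1
  · simpa only [e] using hE

theorem result :
    (∀ I : Finset ℕ, I.Nonempty → ∃ (n : ℕ) (T : Set (E n)), Spec T ∧ sig T = I ∧ FE T ∧ FE (polar T)) ∧
    ∀ (n : ℕ) (T : Set (E n)), Convex ℝ T → IsClosed T → 0 ∈ interior T → sig T = {0, 2, 3} → FE T →
      ¬ FE (polar T) := by
  refine ⟨fun I hI => ?_, fun n T => no⟩
  obtain ⟨d, hd, hM⟩ := I.exists_max_image id hI
  obtain ⟨k, hk, hm⟩ := I.exists_min_image id hI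
  simp only [id] at hM hm
  refine ⟨d, S d I, spec I hM, Set.ext fun j => ⟨?_, fun hj => ?_⟩, fun F hF hn hne => ?_, pol hM hk hm ▸ orth _⟩
  · rintro ⟨F, hF, hn, rfl⟩
    obtain ⟨j, hj, p, hp, -, h, rfl⟩ := classify hd hF hn
    rwa [dimL (hM j hj) hp h]
  · obtain ⟨p, hp⟩ : ∃ p : E d, ∀ i, p i = if (i : ℕ) < j then 2 else 1 := ⟨WithLp.toLp 2 _, fun _ => rfl⟩
    have h1 : ∀ i, (p i)⁻¹ ≤ 1 := fun i => by rw [hp]; split_ifs <;> norm_num
    have h2 : p ∈ S d I := fun l hl => ⟨fun i _ => by rw [hp]; split_ifs <;> norm_num,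
      cardD (hM l hl) ▸ Finset.sum_le_sum fun i _ => h1 i⟩
    have h3 : act j p := (Finset.sum_congr rfl fun i hi => by simp [hp, (memD.1 hi).not_gt]).trans (cardD (hM j hj))
    refine ⟨{x ∈ S d I | ∀ i ∈ D d j, x i = p i}, ?_, ⟨p, h2, fun _ _ => rfl⟩, dimL (hM j hj) h2 fun l hl h => ne_of_lt (cardD (hM l hl) ▸
      Finset.sum_lt_sum (fun i _ => h1 i) ⟨⟨l, h.trans_le (hM j hj)⟩, memD.2 le_rfl, by norm_num [hp, h]⟩)⟩
    convert face_cut (spec_convex (spec I hM)) fun x hx => (cut hj h2 h3 hx).1 using 1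
    exact sep_ext_iff.2 fun x hx => (cut hj h2 h3 hx).2.symm
  · obtain ⟨j, hj, p, hp, h1, -, rfl⟩ := classify hd hF hn
    refine ⟨nv j p, j - d, fun h => hne (sep_eq_self_iff_mem_true.2 fun x hx => (cut hj hp h1 hx).2.1 ?_),
      fun x hx => (cut hj hp h1 hx).1, sep_ext_iff.2 fun x hx => (cut hj hp h1 hx).2.symm⟩
    rw [← (cut hj hp h1 hp).2.2 fun _ _ => rfl, h, inner_zero_right, inner_zero_right]

end Pool.Agent.Results.MP_f0e28a_gt.Both
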